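import Pool.Agent.U517.TB.Example

/-!
# Almost every union of rotated triangular lattices is a dense forest
-/

set_option autoImplicit false

namespace Pool.Agent.U517.TB

open MeasureTheory Complex ComplexConjugate

/-- `TBG(k,(x_i),(θ_i))` with the angles written as `2πθ_i`, where `θ_i` is in `ℝ / ℤ`; the
rotation by the angle `2πθ` is the multiplication by `AddCircle.toCircle θ`. -/
noncomputable def TBGc (k : ℕ) (x : Fin k → ℂ) (θ : Fin k → UnitAddCircle) : Set ℂ :=
  {z | ∃ i : Fin k, ∃ w ∈ Lam, z = (AddCircle.toCircle (θ i) : ℂ) * w + x i}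

/-- Dense forests, with a visibility function `V : (0,1) → (0,∞)`: every segment of length `V ε`
contains a point at distance at most `ε` from `Y`. -/
def HasVisibility (Y : Set ℂ) : Prop :=
  ∃ V : ℝ → ℝ, ∀ ε : ℝ, 0 < ε → ε < 1 → 0 < V ε ∧ ∀ p q : ℂ, dist p q = V ε →
    ∃ z ∈ segment ℝ p q, ∃ y ∈ Y, dist z y ≤ ε

lemma hasVisibility_iff (Y : Set ℂ) : HasVisibility Y ↔ IsDenseForest Y := by
  constructor
  · rintro ⟨V, hV⟩ ε hε
    obtain ⟨h0, h1⟩ := hV (min (ε / 2) (1 / 2)) (by positivity)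
      (lt_of_le_of_lt (min_le_right _ _) (by norm_num))
    refine ⟨_, h0, fun p q hpq => ?_⟩
    obtain ⟨z, hz, y, hy, hzy⟩ := h1 p q hpq
    exact ⟨z, hz, y, hy, lt_of_le_of_lt (hzy.trans (min_le_left _ _)) (by linarith)⟩
  · intro h
    have h' : ∀ ε : ℝ, ∃ V : ℝ, 0 < ε → 0 < V ∧ ∀ p q : ℂ, dist p q = V →
        ∃ z ∈ segment ℝ p q, ∃ d ∈ Y, dist z d < ε := by
      intro ε
      by_cases hε : 0 < ε
      · obtain ⟨V, hV⟩ := h ε hε
        exact ⟨V, fun _ => hV⟩
      · exact ⟨0, fun h => absurd h hε⟩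
    choose V hV using h'
    refine ⟨V, fun ε h0 _ => ⟨(hV ε h0).1, fun p q hpq => ?_⟩⟩
    obtain ⟨z, hz, d, hd, hlt⟩ := (hV ε h0).2 p q hpq
    exact ⟨z, hz, d, hd, hlt.le⟩

lemma toCircle_coe (t : ℝ) : ((AddCircle.toCircle (t : UnitAddCircle) : Circle) : ℂ)
    = Complex.exp (((2 * Real.pi * t : ℝ) : ℂ) * Complex.I) := by
  rw [AddCircle.toCircle_apply_mk, Circle.coe_exp, div_one]

lemma TBGc_coe (k : ℕ) (x : Fin k → ℂ) (t : Fin k → ℝ) :
    TBGc k x (fun i => (t i : UnitAddCircle)) = TBG k x (fun i => 2 * Real.pi * t i) := by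
  ext z
  simp only [TBGc, TBG, toCircle_coe]

lemma K3_countable : K3.Countable := by
  have : K3 = Set.range (fun p : ℚ × ℚ =>
      (p.1 : ℂ) + (p.2 : ℂ) * ((Real.sqrt 3 : ℝ) : ℂ) * Complex.I) := by
    ext z; constructor
    · rintro ⟨a, b, rfl⟩; exact ⟨(a, b), rfl⟩
    · rintro ⟨⟨a, b⟩, rfl⟩; exact ⟨a, b, rfl⟩
  rw [this]; exact Set.countable_range _

/-- The differences of angles which are bad. -/
def Bad : Set ℝ := {t | Complex.exp (((2 * t : ℝ) : ℂ) * Complex.I) ∈ K3}

lemma Bad_countable : Bad.Countable := by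
  have h : Bad = ⋃ z ∈ K3, {t : ℝ | Complex.exp (((2 * t : ℝ) : ℂ) * Complex.I) = z} := by
    ext t; simp [Bad]
  rw [h]
  refine K3_countable.biUnion fun z _ => ?_
  by_cases hz : ∃ t₀ : ℝ, Complex.exp (((2 * t₀ : ℝ) : ℂ) * Complex.I) = z
  · obtain ⟨t₀, ht₀⟩ := hz
    refine (Set.countable_range (fun n : ℤ => t₀ + n * Real.pi)).mono ?_
    intro t ht
    simp only [Set.mem_setOf_eq] at ht
    rw [← ht₀, Complex.exp_eq_exp_iff_exists_int] at ht
    obtain ⟨n, hn⟩ := ht
    refine ⟨n, ?_⟩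
    have h1 : (((2 * t : ℝ) : ℂ)) = ((2 * t₀ + n * (2 * Real.pi) : ℝ) : ℂ) := by
      have hI : Complex.I ≠ 0 := Complex.I_ne_zero
      apply mul_right_cancel₀ hI
      rw [hn]; push_cast; ring
    have h2 : 2 * t = 2 * t₀ + n * (2 * Real.pi) := by exact_mod_cast h1
    simp only
    linarith
  · convert Set.countable_empty
    ext t
    simp only [Set.mem_setOf_eq, Set.mem_empty_iff_false, iff_false]
    intro ht
    exact hz ⟨t, ht⟩

/-- The bad differences of `θ`'s. -/
def BadT : Set ℝ := {s | 2 * Real.pi * s ∈ Bad}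

lemma BadT_countable : BadT.Countable := by
  refine Bad_countable.preimage_of_injOn ?_
  intro a _ b _ h
  exact mul_left_cancel₀ Real.two_pi_pos.ne' h

/-- The set of angles whose differences are bad is a null set. -/
lemma null_real {k : ℕ} (i j : Fin k) (hij : i ≠ j) :
    volume {t : Fin k → ℝ | t i - t j ∈ BadT} = 0 := by
  have h : {t : Fin k → ℝ | t i - t j ∈ BadT} =
      ⋃ c ∈ BadT, {t : Fin k → ℝ | t i - t j = c} := by
    ext t; simp
  rw [h]
  refine (measure_biUnion_null_iff BadT_countable).mpr fun c _ => ?_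
  let φ : (Fin k → ℝ) →ₗ[ℝ] ℝ :=
    (LinearMap.proj (R := ℝ) (φ := fun _ : Fin k => ℝ) i) -
      (LinearMap.proj (R := ℝ) (φ := fun _ : Fin k => ℝ) j)
  have hφ : LinearMap.ker φ ≠ ⊤ := by
    intro htop
    have h1 : (Pi.single i (1 : ℝ) : Fin k → ℝ) ∈ LinearMap.ker φ := by rw [htop]; trivial
    have h2 : φ (Pi.single i (1 : ℝ)) = 0 := h1
    simp [φ, hij.symm] at h2
  have h0 : volume ((LinearMap.ker φ : Submodule ℝ (Fin k → ℝ)) : Set (Fin k → ℝ)) = 0 :=
    Measure.addHaar_submodule volume _ hφ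
  have h1 : {t : Fin k → ℝ | t i - t j = c} =
      (fun t => t + Pi.single i (-c)) ⁻¹'
        ((LinearMap.ker φ : Submodule ℝ (Fin k → ℝ)) : Set (Fin k → ℝ)) := by
    ext t
    simp only [Set.mem_preimage, SetLike.mem_coe, LinearMap.mem_ker, φ, LinearMap.sub_apply,
      LinearMap.proj_apply, Pi.add_apply, Pi.single_eq_same, Pi.single_eq_of_ne hij.symm]
    constructor
    · intro ht; linarith [show t i - t j = c from ht]
    · intro ht; show t i - t j = c; linarith
  rw [h1, measure_preimage_add_right, h0]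

/-- The bad differences in the circle. -/
def BadC : Set UnitAddCircle := (fun t : ℝ => (t : UnitAddCircle)) '' BadT

lemma mem_BadC (s : ℝ) : ((s : ℝ) : UnitAddCircle) ∈ BadC ↔ s ∈ BadT := by
  constructor
  · rintro ⟨b, hb, hbs⟩
    have h1 := toCircle_coe b
    have h2 := toCircle_coe s
    simp only at hbs
    rw [hbs, h2] at h1
    have h3 : ∀ r : ℝ, Complex.exp (((2 * (2 * Real.pi * r) : ℝ) : ℂ) * Complex.I) =
        Complex.exp (((2 * Real.pi * r : ℝ) : ℂ) * Complex.I) *
          Complex.exp (((2 * Real.pi * r : ℝ) : ℂ) * Complex.I) := by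
      intro r; rw [← Complex.exp_add]; congr 1; push_cast; ring
    show Complex.exp (((2 * (2 * Real.pi * s) : ℝ) : ℂ) * Complex.I) ∈ K3
    rw [h3, h1, ← h3]
    exact hb
  · intro h; exact ⟨s, h, rfl⟩

lemma null_circle {k : ℕ} (i j : Fin k) (hij : i ≠ j) :
    volume {θ : Fin k → UnitAddCircle | θ i - θ j ∈ BadC} = 0 := by
  have hmeas : MeasurableSet {θ : Fin k → UnitAddCircle | θ i - θ j ∈ BadC} := by
    have hc : BadC.Countable := BadT_countable.image _
    exact ((measurable_pi_apply i).sub (measurable_pi_apply j)) hc.measurableSet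
  have hmp : MeasurePreserving
      (fun (a : Fin k → ℝ) (i : Fin k) => ((a i : ℝ) : UnitAddCircle))
      (Measure.pi fun _ : Fin k => (volume : Measure ℝ).restrict (Set.Ioc 0 (0 + 1)))
      (Measure.pi fun _ : Fin k => (volume : Measure UnitAddCircle)) :=
    measurePreserving_pi _ _ fun _ => AddCircle.measurePreserving_mk 1 0
  have h1 := hmp.measure_preimage hmeas.nullMeasurableSet
  have h2 : (Measure.pi fun _ : Fin k => (volume : Measure UnitAddCircle)) = volume :=
    rfl
  rw [h2] at h1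
  rw [← h1]
  have h3 : (fun (a : Fin k → ℝ) (i : Fin k) => ((a i : ℝ) : UnitAddCircle)) ⁻¹'
      {θ : Fin k → UnitAddCircle | θ i - θ j ∈ BadC} =
      {t : Fin k → ℝ | t i - t j ∈ BadT} := by
    ext t
    show ((t i : ℝ) : UnitAddCircle) - ((t j : ℝ) : UnitAddCircle) ∈ BadC ↔
      t i - t j ∈ BadT
    rw [← AddCircle.coe_sub, mem_BadC]
  rw [h3, ← Measure.restrict_pi_pi]
  exact le_antisymm ((Measure.restrict_apply_le _ _).trans (null_real i j hij).le) bot_le

theorem ae_iff_two_le (k : ℕ) :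
    (∀ᵐ q : (Fin k → UnitAddCircle) × (Fin k → ℂ),
      HasVisibility (TBGc k q.2 q.1)) ↔ 2 ≤ k := by
  have lift : ∀ θ : Fin k → UnitAddCircle, ∃ t : Fin k → ℝ,
      θ = fun i => ((t i : ℝ) : UnitAddCircle) := by
    intro θ
    choose t ht using fun i => QuotientAddGroup.mk_surjective (θ i)
    exact ⟨t, funext fun i => (ht i).symm⟩
  constructor
  · intro h
    by_contra hk
    have hne : (volume : Measure ((Fin k → UnitAddCircle) × (Fin k → ℂ))) ≠ 0 := by
      intro h0
      have h1 : (volume : Measure ((Fin k → UnitAddCircle) × (Fin k → ℂ)))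
        (Set.univ ×ˢ Set.univ) = 0 := by rw [h0]; rfl
      rw [Measure.volume_eq_prod, Measure.prod_prod, mul_eq_zero] at h1
      rcases h1 with h1 | h1
      · have h2 : (volume : Measure (Fin k → UnitAddCircle)) Set.univ = 1 := by
          have h3 : (volume : Measure (Fin k → UnitAddCircle)) =
            Measure.pi fun _ => (volume : Measure UnitAddCircle) := rfl
          rw [h3, Measure.pi_univ]
          simp
        rw [h2] at h1
        exact one_ne_zero h1
      · exact (isOpen_univ.measure_pos volume Set.univ_nonempty).ne' h1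
    have : (ae (volume : Measure ((Fin k → UnitAddCircle) × (Fin k → ℂ)))).NeBot :=
      ae_neBot.mpr hne
    obtain ⟨⟨θ, x⟩, hq⟩ := h.exists
    obtain ⟨t, rfl⟩ := lift θ
    simp only at hq
    rw [hasVisibility_iff, TBGc_coe, forest_iff] at hq
    obtain ⟨i, j, hij⟩ := hq
    have hij' : i = j := by
      have := i.2; have := j.2
      apply Fin.ext; omega
    apply hij
    rw [hij']
    simpa using one_mem
  · intro hk
    set i : Fin k := ⟨0, by omega⟩ with hi
    set j : Fin k := ⟨1, by omega⟩ with hj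
    have hij : i ≠ j := by
      intro h; simpa [hi, hj] using congrArg Fin.val h
    rw [ae_iff]
    have hsub : {q : (Fin k → UnitAddCircle) × (Fin k → ℂ) |
        ¬ HasVisibility (TBGc k q.2 q.1)} ⊆
        {θ : Fin k → UnitAddCircle | θ i - θ j ∈ BadC} ×ˢ Set.univ := by
      rintro ⟨θ, x⟩ hq
      refine ⟨?_, trivial⟩
      obtain ⟨t, rfl⟩ := lift θ
      show ((t i : ℝ) : UnitAddCircle) - ((t j : ℝ) : UnitAddCircle) ∈ BadC
      rw [← AddCircle.coe_sub, mem_BadC]
      by_contra hbad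
      apply hq
      show HasVisibility (TBGc k x fun i => ((t i : ℝ) : UnitAddCircle))
      rw [hasVisibility_iff, TBGc_coe, forest_iff]
      refine ⟨i, j, ?_⟩
      have e : 2 * (2 * Real.pi * t i - 2 * Real.pi * t j) =
          2 * (2 * Real.pi * (t i - t j)) := by ring
      rw [e]
      exact hbad
    refine measure_mono_null hsub ?_
    rw [Measure.volume_eq_prod, Measure.prod_prod, null_circle i j hij, zero_mul]

end Pool.Agent.U517.TB
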