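import Pool.Agent.U517.TB.Forest

/-!
# Consequences of the two criteria
-/

set_option autoImplicit false

namespace Pool.Agent.U517.TB

lemma neg_I_not_mem : -Complex.I ∉ K3 := by
  rintro ⟨a, b, h⟩
  have h1 := congrArg Complex.im h
  have h2 : (-1 : ℝ) = b * Real.sqrt 3 := by
    simpa using h1
  have hb : (b : ℝ) ≠ 0 := by
    intro h0; rw [h0, zero_mul] at h2; norm_num at h2
  have h3 : Real.sqrt 3 = ((-1 / b : ℚ) : ℝ) := by
    push_cast; field_simp; linarith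
  exact (Nat.Prime.irrational_sqrt (p := 3) (by norm_num)) ⟨_, by rw [← h3]; norm_num⟩

lemma example_forest (x : Fin 2 → ℂ) : IsDenseForest (TBG 2 x ![0, Real.pi / 4]) := by
  rw [forest_iff]
  refine ⟨0, 1, ?_⟩
  have : Complex.exp (((2 * ((![0, Real.pi / 4] : Fin 2 → ℝ) 0 -
      (![0, Real.pi / 4] : Fin 2 → ℝ) 1) : ℝ) : ℂ) * Complex.I) = -Complex.I := by
    have e : (((2 * ((![0, Real.pi / 4] : Fin 2 → ℝ) 0 -
      (![0, Real.pi / 4] : Fin 2 → ℝ) 1) : ℝ) : ℂ) * Complex.I) = -(Real.pi / 2 * Complex.I) := by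
      simp; ring
    rw [e, Complex.exp_neg, Complex.exp_pi_div_two_mul_I, Complex.inv_I]
  rw [this]
  exact neg_I_not_mem

lemma one_mem : (1 : ℂ) ∈ K3 := ⟨1, 0, by simp⟩

lemma not_forest_one (x : Fin 1 → ℂ) (θ : Fin 1 → ℝ) : ¬ IsDenseForest (TBG 1 x θ) := by
  rw [forest_iff]
  rintro ⟨i, j, hij⟩
  have hij' : i = j := Subsingleton.elim _ _
  apply hij
  rw [hij']
  simpa using one_mem

lemma not_both (k : ℕ) (x : Fin k → ℂ) (θ : Fin k → ℝ) :
    ¬ (IsUnifDiscrete (TBG k x θ) ∧ IsDenseForest (TBG k x θ)) := by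
  rintro ⟨hU, hF⟩
  rw [ud_iff] at hU
  rw [forest_iff] at hF
  obtain ⟨i, j, hij⟩ := hF
  apply hij
  rw [← exp_sq, exp_mul_conj]
  exact K3_mul (hU i j) (hU i j)

end Pool.Agent.U517.TB
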