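import Mathlib

/-!
# Unions of rotated, translated copies of the triangular lattice

The plane is identified with `ℂ`.
-/

namespace Pool.Agent.U517.TB

open Complex ComplexConjugate

/-- The unit vector `(1/2, √3/2)`, as a complex number. -/
noncomputable def om : ℂ := (1 / 2 : ℂ) + ((Real.sqrt 3 / 2 : ℝ) : ℂ) * Complex.I

/-- The integer combination `a (1,0) + b (1/2, √3/2)`. -/
noncomputable def pt (a b : ℤ) : ℂ := (a : ℂ) + (b : ℂ) * om

/-- The triangular (honeycomb) lattice `Λ = span_ℤ ((1,0), (1/2, √3/2))`. -/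
def Lam : Set ℂ := {z | ∃ a b : ℤ, z = pt a b}

/-- `TBG(k,(x_i),(θ_i))`: the union of the sets `r_{θ_i}(Λ) + x_i`. -/
def TBG (k : ℕ) (x : Fin k → ℂ) (θ : Fin k → ℝ) : Set ℂ :=
  {z | ∃ i : Fin k, ∃ w ∈ Lam, z = Complex.exp ((θ i : ℂ) * Complex.I) * w + x i}

/-- Dense forests: for every `ε > 0` there is `V > 0` such that every segment of length `V`
has a point of `D` at distance less than `ε` from it. -/
def IsDenseForest (D : Set ℂ) : Prop :=
  ∀ ε : ℝ, 0 < ε → ∃ V : ℝ, 0 < V ∧ ∀ p q : ℂ, dist p q = V →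
    ∃ z ∈ segment ℝ p q, ∃ d ∈ D, dist z d < ε

/-- Uniformly discrete sets. -/
def IsUnifDiscrete (D : Set ℂ) : Prop :=
  ∃ r : ℝ, 0 < r ∧ ∀ p ∈ D, ∀ q ∈ D, p ≠ q → r ≤ dist p q

/-- The field `ℚ(√-3)`, as a set of complex numbers. -/
def K3 : Set ℂ := {z | ∃ a b : ℚ, z = (a : ℂ) + (b : ℂ) * ((Real.sqrt 3 : ℝ) : ℂ) * Complex.I}

/-! ### Arithmetic of the lattice -/

lemma om_re : om.re = 1 / 2 := by simp [om]

lemma om_im : om.im = Real.sqrt 3 / 2 := by simp [om]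

lemma pt_re (a b : ℤ) : (pt a b).re = a + b / 2 := by
  simp [pt, om_re, om_im]; ring

lemma pt_im (a b : ℤ) : (pt a b).im = b * (Real.sqrt 3 / 2) := by
  simp [pt, om_re, om_im]

lemma s3 : Real.sqrt 3 * Real.sqrt 3 = 3 := Real.mul_self_sqrt (by norm_num)

lemma s3pos : 0 < Real.sqrt 3 := Real.sqrt_pos.mpr (by norm_num)

lemma om_sq : om * om = om - 1 := by
  apply Complex.ext
  · simp only [Complex.mul_re, om_re, om_im, Complex.sub_re, Complex.one_re]
    nlinarith [s3]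
  · simp only [Complex.mul_im, om_re, om_im, Complex.sub_im, Complex.one_im]
    ring

lemma conj_om : conj om = 1 - om := by
  apply Complex.ext
  · simp [om_re]; norm_num
  · simp [om_im]

lemma pt_zero : pt 0 0 = 0 := by simp [pt]

lemma pt_add (a b c d : ℤ) : pt a b + pt c d = pt (a + c) (b + d) := by
  simp only [pt]; push_cast; ring

lemma pt_sub (a b c d : ℤ) : pt a b - pt c d = pt (a - c) (b - d) := by
  simp only [pt]; push_cast; ring

lemma pt_neg (a b : ℤ) : -pt a b = pt (-a) (-b) := by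
  simp only [pt]; push_cast; ring

lemma pt_mul (a b c d : ℤ) : pt a b * pt c d = pt (a * c - b * d) (a * d + b * c + b * d) := by
  simp only [pt]; push_cast
  linear_combination ((b : ℂ) * d) * om_sq

lemma pt_conj (a b : ℤ) : conj (pt a b) = pt (a + b) (-b) := by
  simp only [pt, map_add, map_mul, conj_om, map_intCast]; push_cast; ring

lemma pt_eq_zero {a b : ℤ} (h : pt a b = 0) : a = 0 ∧ b = 0 := by
  have h1 := congrArg Complex.im h
  have h2 := congrArg Complex.re h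
  rw [pt_im] at h1
  rw [pt_re] at h2
  simp only [Complex.zero_im, Complex.zero_re] at h1 h2
  have hb : (b : ℝ) = 0 := by
    rcases mul_eq_zero.mp h1 with h | h
    · exact h
    · have := s3pos; linarith
  have ha : (a : ℝ) = 0 := by rw [hb] at h2; linarith
  exact ⟨by exact_mod_cast ha, by exact_mod_cast hb⟩

lemma pt_normSq (a b : ℤ) : Complex.normSq (pt a b) = ((a ^ 2 + a * b + b ^ 2 : ℤ) : ℝ) := by
  rw [Complex.normSq_apply, pt_re, pt_im]; push_cast
  nlinarith [s3]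

/-- Every point of the plane is within distance `1` of the lattice. -/
lemma cover (z : ℂ) : ∃ a b : ℤ, ‖z - pt a b‖ ≤ 1 := by
  obtain ⟨b, hb⟩ : ∃ b : ℤ, |z.im / (Real.sqrt 3 / 2) - b| ≤ 1 / 2 :=
    ⟨_, abs_sub_round _⟩
  obtain ⟨a, ha⟩ : ∃ a : ℤ, |(z.re - b / 2) - a| ≤ 1 / 2 := ⟨_, abs_sub_round _⟩
  refine ⟨a, b, ?_⟩
  have hs := s3pos
  have h1 : |(z - pt a b).re| ≤ 1 / 2 := by
    rw [Complex.sub_re, pt_re]
    have : z.re - (a + b / 2) = (z.re - b / 2) - a := by ring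
    rw [this]; exact ha
  have h2 : |(z - pt a b).im| ≤ Real.sqrt 3 / 4 := by
    rw [Complex.sub_im, pt_im]
    have : z.im - b * (Real.sqrt 3 / 2) = (z.im / (Real.sqrt 3 / 2) - b) * (Real.sqrt 3 / 2) := by
      field_simp
    rw [this, abs_mul, abs_of_pos (by positivity : (0 : ℝ) < Real.sqrt 3 / 2)]
    nlinarith
  have h3 : ‖z - pt a b‖ ^ 2 ≤ 1 ^ 2 := by
    rw [← Complex.normSq_eq_norm_sq, Complex.normSq_apply]
    have e1 : (z - pt a b).re * (z - pt a b).re ≤ (1 / 2) * (1 / 2) := by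
      rw [← abs_mul_abs_self]
      exact mul_self_le_mul_self (abs_nonneg _) h1
    have e2 : (z - pt a b).im * (z - pt a b).im ≤ (Real.sqrt 3 / 4) * (Real.sqrt 3 / 4) := by
      rw [← abs_mul_abs_self (z - pt a b).im]
      exact mul_self_le_mul_self (abs_nonneg _) h2
    nlinarith [s3]
  exact le_of_sq_le_sq h3 (by norm_num)

/-! ### Irrational directions -/

/-- `v` is a rational direction of the lattice `u Λ`. -/
def Rat (u v : ℂ) : Prop := ∃ a b : ℤ, ¬ (a = 0 ∧ b = 0) ∧ (u * pt a b * conj v).im = 0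

lemma im_lin (u v : ℂ) (a b : ℤ) :
    (u * pt a b * conj v).im = a * (u * conj v).im + b * (u * om * conj v).im := by
  have : u * pt a b * conj v = ((a : ℝ) : ℂ) * (u * conj v) + ((b : ℝ) : ℂ) * (u * om * conj v) := by
    simp only [pt]; push_cast; ring
  rw [this, Complex.add_im, Complex.im_ofReal_mul, Complex.im_ofReal_mul]

/-- A subgroup of `ℝ` generated by two numbers without integer relation is dense. -/
lemma dense_two (s t : ℝ) (h : ∀ a b : ℤ, a * s + b * t = 0 → a = 0 ∧ b = 0) (y ε : ℝ)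
    (hε : 0 < ε) : ∃ a b : ℤ, |y - (a * s + b * t)| < ε := by
  let f : ℤ × ℤ →+ ℝ :=
    { toFun := fun p => p.1 * s + p.2 * t
      map_zero' := by simp
      map_add' := by intro p q; simp only [Prod.fst_add, Prod.snd_add]; push_cast; ring }
  rcases AddSubgroup.dense_or_cyclic f.range with hd | ⟨c, hc⟩
  · obtain ⟨w, hw, hwy⟩ := Metric.dense_iff.mp hd y ε hε
    obtain ⟨p, rfl⟩ := hwy
    refine ⟨p.1, p.2, ?_⟩
    rw [Metric.mem_ball, Real.dist_eq, abs_sub_comm] at hw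
    exact hw
  · exfalso
    have hs : s ∈ AddSubgroup.closure ({c} : Set ℝ) := by
      rw [← hc]; exact ⟨(1, 0), by simp [f]⟩
    have ht : t ∈ AddSubgroup.closure ({c} : Set ℝ) := by
      rw [← hc]; exact ⟨(0, 1), by simp [f]⟩
    rw [AddSubgroup.mem_closure_singleton] at hs ht
    obtain ⟨m, hm⟩ := hs
    obtain ⟨n, hn⟩ := ht
    simp only [zsmul_eq_mul] at hm hn
    have h1 := h n (-m) (by rw [← hm, ← hn]; push_cast; ring)
    have hm0 : m = 0 := by omega
    have h2 := h 1 0 (by rw [← hm, hm0]; simp)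
    omega

/-- A line in an irrational direction comes arbitrarily close to the lattice. -/
lemma irrational_close {u v : ℂ} (hv : ‖v‖ = 1) (h : ¬ Rat u v) (p : ℂ) {ε : ℝ} (hε : 0 < ε) :
    ∃ (τ : ℝ) (a b : ℤ), ‖p + τ * v - u * pt a b‖ < ε := by
  have h' : ∀ a b : ℤ, a * (u * conj v).im + b * (u * om * conj v).im = 0 → a = 0 ∧ b = 0 := by
    intro a b hab
    by_contra hne
    exact h ⟨a, b, hne, by rw [im_lin]; exact hab⟩
  obtain ⟨a, b, hab⟩ := dense_two _ _ h' (p * conj v).im ε hε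
  refine ⟨-((p - u * pt a b) * conj v).re, a, b, ?_⟩
  have hvv : v * conj v = 1 := by
    rw [Complex.mul_conj, Complex.normSq_eq_norm_sq, hv]; simp
  have hn : ‖(p + ((-((p - u * pt a b) * conj v).re : ℝ) : ℂ) * v - u * pt a b) * conj v‖
      = ‖p + ((-((p - u * pt a b) * conj v).re : ℝ) : ℂ) * v - u * pt a b‖ := by
    rw [norm_mul, Complex.norm_conj, hv, mul_one]
  rw [← hn]
  have e : (p + ((-((p - u * pt a b) * conj v).re : ℝ) : ℂ) * v - u * pt a b) * conj v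
      = ((((p * conj v).im - (a * (u * conj v).im + b * (u * om * conj v).im)) : ℝ) : ℂ)
        * Complex.I := by
    rw [← im_lin]
    have e1 : (p + ((-((p - u * pt a b) * conj v).re : ℝ) : ℂ) * v - u * pt a b) * conj v
      = (p - u * pt a b) * conj v - ((((p - u * pt a b) * conj v).re : ℝ) : ℂ) := by
      push_cast
      linear_combination (-((((p - u * pt a b) * conj v).re : ℝ) : ℂ)) * hvv
    rw [e1]
    apply Complex.ext
    · simp
    · simp [sub_mul]
  rw [e, norm_mul, Complex.norm_I, mul_one, Complex.norm_real, Real.norm_eq_abs]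
  exact hab

lemma cover' (z : ℂ) {u : ℂ} (hu : ‖u‖ = 1) : ∃ a b : ℤ, ‖z - u * pt a b‖ ≤ 1 := by
  obtain ⟨a, b, hab⟩ := cover (conj u * z)
  refine ⟨a, b, ?_⟩
  have huu : u * conj u = 1 := by
    rw [Complex.mul_conj, Complex.normSq_eq_norm_sq, hu]; simp
  have e : z - u * pt a b = u * (conj u * z - pt a b) := by
    linear_combination (-z) * huu
  rw [e, norm_mul, hu, one_mul]
  exact hab

open Filter Topology in
/-- Two lattices without common rational direction: any set containing a translate of each is a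
dense forest. -/
lemma forest_of_two {D : Set ℂ} {u₁ u₂ x₁ x₂ : ℂ} (h1 : ‖u₁‖ = 1) (h2 : ‖u₂‖ = 1)
    (hD1 : ∀ a b : ℤ, u₁ * pt a b + x₁ ∈ D) (hD2 : ∀ a b : ℤ, u₂ * pt a b + x₂ ∈ D)
    (hirr : ∀ v : ℂ, ‖v‖ = 1 → ¬ (Rat u₁ v ∧ Rat u₂ v)) : IsDenseForest D := by
  by_contra hnot
  simp only [IsDenseForest] at hnot
  push Not at hnot
  obtain ⟨ε, hε, hseg⟩ := hnot
  have hex : ∀ n : ℕ, ∃ m v : ℂ, ‖v‖ = 1 ∧
      ∀ τ : ℝ, |τ| ≤ n → ∀ d ∈ D, ε ≤ ‖m + τ * v - d‖ := by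
    intro n
    have hn : (0 : ℝ) < 2 * ((n : ℝ) + 1) := by positivity
    obtain ⟨p, q, hpq, hfar⟩ := hseg (2 * ((n : ℝ) + 1)) hn
    refine ⟨(p + q) / 2, ((1 / (2 * ((n : ℝ) + 1)) : ℝ) : ℂ) * (q - p), ?_, ?_⟩
    · rw [norm_mul, Complex.norm_real, Real.norm_eq_abs, abs_of_pos (by positivity),
        ← dist_eq_norm, dist_comm, hpq]
      field_simp
    · intro τ hτ d hd
      have key := hfar ((p + q) / 2 + τ * (((1 / (2 * ((n : ℝ) + 1)) : ℝ) : ℂ) * (q - p))) ?_ d hd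
      · rwa [dist_eq_norm] at key
      · rw [segment_eq_image]
        have hτ' := abs_le.mp hτ
        refine ⟨1 / 2 + τ / (2 * ((n : ℝ) + 1)), ⟨?_, ?_⟩, ?_⟩
        · have : -(1 / 2) ≤ τ / (2 * ((n : ℝ) + 1)) := by
            rw [le_div_iff₀ hn]; nlinarith
          linarith
        · have : τ / (2 * ((n : ℝ) + 1)) ≤ 1 / 2 := by
            rw [div_le_iff₀ hn]; nlinarith
          linarith
        · simp only [Complex.real_smul]
          push_cast
          ring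
  choose m v hv hfar using hex
  choose a₁ b₁ hc using fun n => cover' (m n - x₁) h1
  choose a₂ b₂ hd using fun n => cover' (m n - x₂) h2
  let X : ℕ → ℂ × ℂ × ℂ := fun n =>
    (m n - x₁ - u₁ * pt (a₁ n) (b₁ n), m n - x₂ - u₂ * pt (a₂ n) (b₂ n), v n)
  have hK : IsCompact ((Metric.closedBall (0 : ℂ) 1) ×ˢ ((Metric.closedBall (0 : ℂ) 1) ×ˢ
      (Metric.sphere (0 : ℂ) 1))) :=
    (isCompact_closedBall _ _).prod ((isCompact_closedBall _ _).prod (isCompact_sphere _ _))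
  obtain ⟨⟨c, d, w⟩, hmem, φ, hφ, hlim⟩ := hK.tendsto_subseq (x := X) (by
    intro n
    refine ⟨?_, ?_, ?_⟩
    · simpa [X] using hc n
    · simpa [X] using hd n
    · simpa [X] using hv n)
  have hw : ‖w‖ = 1 := by simpa using hmem.2.2
  have l1 : Tendsto (fun n => (X (φ n)).1) atTop (𝓝 c) := (continuous_fst.tendsto _).comp hlim
  have l2 : Tendsto (fun n => (X (φ n)).2.1) atTop (𝓝 d) :=
    ((continuous_fst.comp continuous_snd).tendsto _).comp hlim
  have l3 : Tendsto (fun n => (X (φ n)).2.2) atTop (𝓝 w) :=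
    ((continuous_snd.comp continuous_snd).tendsto _).comp hlim
  have big : ∀ τ : ℝ, ∀ᶠ n in atTop, |τ| ≤ (φ n : ℝ) := by
    intro τ
    obtain ⟨N, hN⟩ := exists_nat_ge |τ|
    filter_upwards [eventually_ge_atTop N] with n hn
    have : (N : ℝ) ≤ (φ n : ℝ) := by exact_mod_cast hn.trans (hφ.id_le n)
    linarith
  have A1 : ∀ (τ : ℝ) (a b : ℤ), ε ≤ ‖c + τ * w - u₁ * pt a b‖ := by
    intro τ a b
    have hl : Tendsto (fun n => ‖(X (φ n)).1 + τ * (X (φ n)).2.2 - u₁ * pt a b‖) atTop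
        (𝓝 ‖c + τ * w - u₁ * pt a b‖) :=
      ((l1.add (l3.const_mul _)).sub_const _).norm
    refine ge_of_tendsto hl ?_
    filter_upwards [big τ] with n hn
    have := hfar (φ n) τ hn _ (hD1 (a₁ (φ n) + a) (b₁ (φ n) + b))
    refine this.trans (le_of_eq ?_)
    congr 1
    simp only [X, ← pt_add]
    ring
  have A2 : ∀ (τ : ℝ) (a b : ℤ), ε ≤ ‖d + τ * w - u₂ * pt a b‖ := by
    intro τ a b
    have hl : Tendsto (fun n => ‖(X (φ n)).2.1 + τ * (X (φ n)).2.2 - u₂ * pt a b‖) atTop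
        (𝓝 ‖d + τ * w - u₂ * pt a b‖) :=
      ((l2.add (l3.const_mul _)).sub_const _).norm
    refine ge_of_tendsto hl ?_
    filter_upwards [big τ] with n hn
    have := hfar (φ n) τ hn _ (hD2 (a₂ (φ n) + a) (b₂ (φ n) + b))
    refine this.trans (le_of_eq ?_)
    congr 1
    simp only [X, ← pt_add]
    ring
  apply hirr w hw
  constructor
  · by_contra h
    obtain ⟨τ, a, b, hlt⟩ := irrational_close hw h c hε
    exact absurd (A1 τ a b) (not_le.mpr hlt)
  · by_contra h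
    obtain ⟨τ, a, b, hlt⟩ := irrational_close hw h d hε
    exact absurd (A2 τ a b) (not_le.mpr hlt)

/-! ### A common rational direction excludes dense forests -/

lemma isClosed_coset (c g : ℝ) : IsClosed {y : ℝ | ∃ m : ℤ, y = c + g * m} := by
  by_cases hg : g = 0
  · have : {y : ℝ | ∃ m : ℤ, y = c + g * m} = {c} := by
      ext y; simp [hg]
    rw [this]; exact isClosed_singleton
  · have h1 : IsClosed (Set.range (fun m : ℤ => (m : ℝ))) :=
      Int.isClosedEmbedding_coe_real.isClosed_range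
    have h2 := ((Homeomorph.mulLeft₀ g hg).trans (Homeomorph.addLeft c)).isClosedMap _ h1
    convert h2 using 1
    ext y
    constructor
    · rintro ⟨m, rfl⟩
      exact ⟨(m : ℝ), ⟨m, rfl⟩, by simp⟩
    · rintro ⟨_, ⟨m, rfl⟩, rfl⟩
      exact ⟨m, by simp⟩

/-- Finitely many cosets of discrete subgroups of `ℝ` leave a gap. -/
lemma gap {k : ℕ} (c g : Fin k → ℝ) :
    ∃ y ε : ℝ, 0 < ε ∧ ∀ (i : Fin k) (m : ℤ), ε ≤ |y - (c i + g i * m)| := by
  have hcl : IsClosed (⋃ i, {y : ℝ | ∃ m : ℤ, y = c i + g i * m}) :=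
    isClosed_iUnion_of_finite fun i => isClosed_coset _ _
  have hco : (⋃ i, {y : ℝ | ∃ m : ℤ, y = c i + g i * m}).Countable := by
    refine Set.countable_iUnion fun i => ?_
    have : {y : ℝ | ∃ m : ℤ, y = c i + g i * m} = Set.range (fun m : ℤ => c i + g i * m) := by
      ext y; simp [eq_comm]
    rw [this]; exact Set.countable_range _
  obtain ⟨y, hy⟩ := (hco.dense_compl ℝ).nonempty
  obtain ⟨ε, hε, hball⟩ := Metric.isOpen_iff.mp hcl.isOpen_compl y hy
  refine ⟨y, ε, hε, fun i m => ?_⟩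
  by_contra hlt
  push Not at hlt
  have : c i + g i * m ∈ Metric.ball y ε := by
    rw [Metric.mem_ball, Real.dist_eq, abs_sub_comm]; exact hlt
  exact hball this (Set.mem_iUnion.mpr ⟨i, m, rfl⟩)

lemma int_rel {s t : ℝ} {m n : ℤ} (hne : ¬ (m = 0 ∧ n = 0)) (h : m * s + n * t = 0) :
    ∃ g : ℝ, ∀ a b : ℤ, ∃ l : ℤ, a * s + b * t = g * l := by
  by_cases hm : m = 0
  · have hn : n ≠ 0 := fun h0 => hne ⟨hm, h0⟩
    have hn' : (n : ℝ) ≠ 0 := by exact_mod_cast hn
    have ht : t = 0 := by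
      rw [hm] at h; simp at h; tauto
    exact ⟨s, fun a b => ⟨a, by rw [ht]; ring⟩⟩
  · have hm' : (m : ℝ) ≠ 0 := by exact_mod_cast hm
    refine ⟨t / m, fun a b => ⟨b * m - a * n, ?_⟩⟩
    have hs : s = -(n * t) / m := by field_simp; linarith
    rw [hs]; push_cast; field_simp; ring

lemma mem_TBG {k : ℕ} {x : Fin k → ℂ} {θ : Fin k → ℝ} (i : Fin k) (a b : ℤ) :
    Complex.exp ((θ i : ℂ) * Complex.I) * pt a b + x i ∈ TBG k x θ :=
  ⟨i, pt a b, ⟨a, b, rfl⟩, rfl⟩

lemma not_forest {k : ℕ} {x : Fin k → ℂ} {θ : Fin k → ℝ} {v : ℂ} (hv : ‖v‖ = 1)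
    (h : ∀ i, Rat (Complex.exp ((θ i : ℂ) * Complex.I)) v) : ¬ IsDenseForest (TBG k x θ) := by
  intro hF
  have hg : ∀ i, ∃ g : ℝ, ∀ a b : ℤ, ∃ l : ℤ,
      (Complex.exp ((θ i : ℂ) * Complex.I) * pt a b * conj v).im = g * l := by
    intro i
    obtain ⟨m, n, hne, hmn⟩ := h i
    rw [im_lin] at hmn
    obtain ⟨g, hg⟩ := int_rel hne hmn
    exact ⟨g, fun a b => by rw [im_lin]; exact hg a b⟩
  choose g hg using hg
  obtain ⟨y, ε, hε, hgap⟩ := gap (fun i => (x i * conj v).im) g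
  obtain ⟨V, hV, hseg⟩ := hF ε hε
  have hvv : v * conj v = 1 := by
    rw [Complex.mul_conj, Complex.normSq_eq_norm_sq, hv]; simp
  obtain ⟨z, hz, d, hd, hlt⟩ := hseg ((y : ℂ) * Complex.I * v)
    ((y : ℂ) * Complex.I * v + (V : ℂ) * v) (by
      rw [dist_eq_norm]; simp [hv, abs_of_pos hV])
  rw [segment_eq_image] at hz
  obtain ⟨τ, -, rfl⟩ := hz
  obtain ⟨i, w, ⟨a, b, rfl⟩, rfl⟩ := hd
  obtain ⟨l, hl⟩ := hg i a b
  have hge := hgap i l
  set u := Complex.exp ((θ i : ℂ) * Complex.I) with hu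
  set z := (1 - τ) • ((y : ℂ) * Complex.I * v) + τ • ((y : ℂ) * Complex.I * v + (V : ℂ) * v)
    with hz
  have e1 : ((z - (u * pt a b + x i)) * conj v).im = y - ((x i * conj v).im + g i * l) := by
    rw [← hl]
    have : (z - (u * pt a b + x i)) * conj v
        = ((y : ℝ) : ℂ) * Complex.I + (((τ * V : ℝ)) : ℂ) - x i * conj v - u * pt a b * conj v := by
      rw [hz]
      simp only [Complex.real_smul]
      push_cast
      linear_combination (y * Complex.I + τ * V) * hvv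
    rw [this]
    simp
    ring
  have e2 : |((z - (u * pt a b + x i)) * conj v).im| ≤ ‖z - (u * pt a b + x i)‖ := by
    refine (Complex.abs_im_le_norm _).trans ?_
    rw [norm_mul, Complex.norm_conj, hv, mul_one]
  rw [e1] at e2
  rw [dist_eq_norm] at hlt
  linarith

/-! ### Arithmetic of `ℚ(√-3)` -/

lemma s3c : ((Real.sqrt 3 : ℝ) : ℂ) * ((Real.sqrt 3 : ℝ) : ℂ) = 3 := by
  rw [← Complex.ofReal_mul, s3]; norm_num

lemma K3_mul {z w : ℂ} (hz : z ∈ K3) (hw : w ∈ K3) : z * w ∈ K3 := by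
  obtain ⟨a, b, rfl⟩ := hz
  obtain ⟨c, d, rfl⟩ := hw
  refine ⟨a * c - 3 * b * d, a * d + b * c, ?_⟩
  push_cast
  linear_combination ((b : ℂ) * d * Complex.I ^ 2) * s3c + (3 * (b : ℂ) * d) * Complex.I_sq

lemma pt_eq (a b : ℤ) : pt a b = ((a : ℂ) + (b : ℂ) / 2) +
    ((b : ℂ) / 2) * ((Real.sqrt 3 : ℝ) : ℂ) * Complex.I := by
  simp only [pt, om]; push_cast; ring

lemma pt_mem_K3 (a b : ℤ) : pt a b ∈ K3 := by
  refine ⟨(a : ℚ) + (b : ℚ) / 2, (b : ℚ) / 2, ?_⟩
  rw [pt_eq]; push_cast; ring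

lemma pt_mul_conj (a b : ℤ) : pt a b * conj (pt a b) = ((a ^ 2 + a * b + b ^ 2 : ℤ) : ℂ) := by
  rw [Complex.mul_conj, pt_normSq]; norm_cast

lemma pt_N_ne {a b : ℤ} (h : ¬ (a = 0 ∧ b = 0)) : ((a ^ 2 + a * b + b ^ 2 : ℤ) : ℂ) ≠ 0 := by
  rw [← pt_mul_conj]
  have : pt a b ≠ 0 := fun h0 => h (pt_eq_zero h0)
  exact mul_ne_zero this (by simpa using this)

lemma pt_ne {a b : ℤ} (h : ¬ (a = 0 ∧ b = 0)) : pt a b ≠ 0 := fun h0 => h (pt_eq_zero h0)

lemma pt_inv_mem {a b : ℤ} (h : ¬ (a = 0 ∧ b = 0)) : (pt a b)⁻¹ ∈ K3 := by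
  have hN := pt_N_ne h
  have h1 : (pt a b)⁻¹ = conj (pt a b) / ((a ^ 2 + a * b + b ^ 2 : ℤ) : ℂ) := by
    rw [← pt_mul_conj]
    have := pt_ne h
    have h2 : conj (pt a b) ≠ 0 := by simpa using this
    field_simp
  refine ⟨((a : ℚ) + (b : ℚ) / 2) / ((a ^ 2 + a * b + b ^ 2 : ℤ) : ℚ),
    (-(b : ℚ) / 2) / ((a ^ 2 + a * b + b ^ 2 : ℤ) : ℚ), ?_⟩
  rw [h1, pt_conj, pt_eq]
  push_cast
  ring

lemma conj_sq_of_real {u w : ℂ} (hu : ‖u‖ = 1) : (u * w).im = 0 ↔ u * u * w = conj w := by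
  have huu : u * conj u = 1 := by
    rw [Complex.mul_conj, Complex.normSq_eq_norm_sq, hu]; simp
  rw [← Complex.conj_eq_iff_im, map_mul]
  constructor
  · intro h
    linear_combination (-u) * h + (conj w) * huu
  · intro h
    linear_combination (-conj u) * h + (u * w) * huu

lemma sq_mem_of_rat {u : ℂ} (hu : ‖u‖ = 1) {a b : ℤ} (h : ¬ (a = 0 ∧ b = 0))
    (h0 : (u * pt a b).im = 0) : u * u ∈ K3 := by
  rw [conj_sq_of_real hu] at h0
  have h1 : u * u = conj (pt a b) * (pt a b)⁻¹ := by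
    rw [← h0]; have := pt_ne h; field_simp
  rw [h1, pt_conj]
  exact K3_mul (pt_mem_K3 _ _) (pt_inv_mem h)

lemma exists_clear {z : ℂ} (hz : z ∈ K3) : ∃ n : ℤ, n ≠ 0 ∧ ∃ p r : ℤ,
    (n : ℂ) * z = (p : ℂ) + (r : ℂ) * ((Real.sqrt 3 : ℝ) : ℂ) * Complex.I := by
  obtain ⟨A, B, rfl⟩ := hz
  refine ⟨A.den * B.den, ?_, A.num * B.den, B.num * A.den, ?_⟩
  · exact mul_ne_zero (by exact_mod_cast A.den_ne_zero) (by exact_mod_cast B.den_ne_zero)
  · have hA : (A : ℂ) = (A.num : ℂ) / (A.den : ℂ) := by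
      exact_mod_cast (congrArg (fun q : ℚ => (q : ℂ)) (Rat.num_div_den A)).symm
    have hB : (B : ℂ) = (B.num : ℂ) / (B.den : ℂ) := by
      exact_mod_cast (congrArg (fun q : ℚ => (q : ℂ)) (Rat.num_div_den B)).symm
    have hA' : (A.den : ℂ) ≠ 0 := by exact_mod_cast A.den_ne_zero
    have hB' : (B.den : ℂ) ≠ 0 := by exact_mod_cast B.den_ne_zero
    rw [hA, hB]
    push_cast
    field_simp

lemma rat_of_sq_mem {u : ℂ} (hu : ‖u‖ = 1) (h : u * u ∈ K3) :
    ∃ a b : ℤ, ¬ (a = 0 ∧ b = 0) ∧ (u * pt a b).im = 0 := by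
  have huu : u * conj u = 1 := by
    rw [Complex.mul_conj, Complex.normSq_eq_norm_sq, hu]; simp
  by_cases h1 : u * u = -1
  · refine ⟨-1, 2, by omega, ?_⟩
    rw [conj_sq_of_real hu, pt_conj, h1, pt_eq, pt_eq]
    push_cast
    ring
  · obtain ⟨n, hn, p, r, hpr⟩ := exists_clear h
    have hc : conj (pt (n + p + r) (-2 * r)) = n * (1 + u * u) := by
      rw [mul_add, hpr, pt_conj, pt_eq]
      push_cast
      ring
    refine ⟨n + p + r, -2 * r, ?_, ?_⟩
    · intro h0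
      rw [h0.1, h0.2, pt_zero, map_zero] at hc
      rcases mul_eq_zero.mp hc.symm with h2 | h2
      · exact hn (by exact_mod_cast h2)
      · exact h1 (by linear_combination h2)
    · rw [conj_sq_of_real hu, hc]
      have hc' : pt (n + p + r) (-2 * r) = n * (1 + conj u * conj u) := by
        rw [← Complex.conj_conj (pt (n + p + r) (-2 * r)), hc]
        simp
      rw [hc']
      linear_combination (n : ℂ) * (u * conj u + 1) * huu

lemma rat_of_common {u u' v : ℂ} (hu : ‖u‖ = 1) (hu' : ‖u'‖ = 1) (hv : ‖v‖ = 1)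
    (h : Rat u v) (h' : Rat u' v) : (u * conj u') * (u * conj u') ∈ K3 := by
  obtain ⟨a, b, hab, h1⟩ := h
  obtain ⟨c, d, hcd, h2⟩ := h'
  have hvv : v * conj v = 1 := by
    rw [Complex.mul_conj, Complex.normSq_eq_norm_sq, hv]; simp
  have huu : ‖u * conj u'‖ = 1 := by rw [norm_mul, Complex.norm_conj, hu, hu', mul_one]
  have e1 : pt a b * conj (pt c d) = pt (a * (c + d) - b * (-d)) (a * (-d) + b * (c + d) + b * (-d))
    := by rw [pt_conj, pt_mul]
  refine sq_mem_of_rat huu (a := a * (c + d) - b * (-d)) (b := a * (-d) + b * (c + d) + b * (-d))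
    ?_ ?_
  · intro h0
    rw [h0.1, h0.2, pt_zero] at e1
    rcases mul_eq_zero.mp e1 with h3 | h3
    · exact pt_ne hab h3
    · exact pt_ne hcd (by simpa using h3)
  · rw [← e1]
    have e2 : u * conj u' * (pt a b * conj (pt c d))
        = (u * pt a b * conj v) * conj (u' * pt c d * conj v) := by
      simp only [map_mul, Complex.conj_conj]
      linear_combination (-(u * conj u' * (pt a b * conj (pt c d)))) * hvv
    rw [e2, Complex.mul_im, Complex.conj_im, Complex.conj_re, h1, h2]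
    ring

/-! ### The criterion for dense forests -/

lemma norm_exp_I (t : ℝ) : ‖Complex.exp ((t : ℂ) * Complex.I)‖ = 1 := Complex.norm_exp_ofReal_mul_I t

lemma exp_mul_conj (s t : ℝ) : Complex.exp ((s : ℂ) * Complex.I) *
    conj (Complex.exp ((t : ℂ) * Complex.I)) = Complex.exp (((s - t : ℝ) : ℂ) * Complex.I) := by
  rw [← Complex.exp_conj, ← Complex.exp_add]
  congr 1
  simp only [map_mul, Complex.conj_ofReal, Complex.conj_I]
  push_cast
  ring

lemma exp_sq (s t : ℝ) : (Complex.exp ((s : ℂ) * Complex.I) *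
    conj (Complex.exp ((t : ℂ) * Complex.I))) * (Complex.exp ((s : ℂ) * Complex.I) *
    conj (Complex.exp ((t : ℂ) * Complex.I)))
      = Complex.exp (((2 * (s - t) : ℝ) : ℂ) * Complex.I) := by
  rw [exp_mul_conj, ← Complex.exp_add]
  congr 1
  push_cast
  ring

theorem forest_iff (k : ℕ) (x : Fin k → ℂ) (θ : Fin k → ℝ) :
    IsDenseForest (TBG k x θ) ↔
      ∃ i j : Fin k, Complex.exp (((2 * (θ i - θ j) : ℝ) : ℂ) * Complex.I) ∉ K3 := by
  constructor
  · intro hF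
    by_contra hno
    push Not at hno
    rcases Nat.eq_zero_or_pos k with hk | hk
    · subst hk
      exact not_forest (v := 1) (by simp) (fun i => i.elim0) hF
    · set i₀ : Fin k := ⟨0, hk⟩
      refine not_forest (v := Complex.exp ((θ i₀ : ℂ) * Complex.I)) (norm_exp_I _) ?_ hF
      intro i
      have h1 := hno i i₀
      rw [← exp_sq] at h1
      obtain ⟨a, b, hab, h0⟩ := rat_of_sq_mem
        (by rw [norm_mul, Complex.norm_conj, norm_exp_I, norm_exp_I, mul_one]) h1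
      refine ⟨a, b, hab, ?_⟩
      rw [← h0]
      congr 1
      ring
  · rintro ⟨i, j, hij⟩
    refine forest_of_two (norm_exp_I (θ i)) (norm_exp_I (θ j)) (mem_TBG i) (mem_TBG j) ?_
    rintro v hv ⟨h1, h2⟩
    apply hij
    rw [← exp_sq]
    exact rat_of_common (norm_exp_I _) (norm_exp_I _) hv h1 h2

/-! ### The criterion for uniform discreteness -/

lemma one_le_norm_pt {a b : ℤ} (h : ¬ (a = 0 ∧ b = 0)) : 1 ≤ ‖pt a b‖ := by
  have h1 : 0 < Complex.normSq (pt a b) := Complex.normSq_pos.mpr (pt_ne h)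
  rw [pt_normSq] at h1
  have h2 : 0 < a ^ 2 + a * b + b ^ 2 := by exact_mod_cast h1
  have h3 : (1 : ℝ) ≤ ((a ^ 2 + a * b + b ^ 2 : ℤ) : ℝ) := by exact_mod_cast h2
  rw [← pt_normSq, Complex.normSq_eq_norm_sq] at h3
  nlinarith [norm_nonneg (pt a b)]

lemma min_dist (z : ℂ) : ∃ ρ : ℝ, 0 < ρ ∧ ∀ a b : ℤ, z + pt a b ≠ 0 → ρ ≤ ‖z + pt a b‖ := by
  by_cases h : ∃ a b : ℤ, z + pt a b ≠ 0 ∧ ‖z + pt a b‖ < 1 / 2
  · obtain ⟨a₀, b₀, hne, hlt⟩ := h
    refine ⟨‖z + pt a₀ b₀‖, norm_pos_iff.mpr hne, fun a b hab => ?_⟩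
    by_contra hcon
    push Not at hcon
    have h1 : ‖pt (a - a₀) (b - b₀)‖ < 1 := by
      rw [← pt_sub]
      calc ‖pt a b - pt a₀ b₀‖ = ‖(z + pt a b) - (z + pt a₀ b₀)‖ := by congr 1; ring
        _ ≤ ‖z + pt a b‖ + ‖z + pt a₀ b₀‖ := norm_sub_le _ _
        _ < 1 := by linarith
    have h2 : a - a₀ = 0 ∧ b - b₀ = 0 := by
      by_contra hne'
      exact absurd (one_le_norm_pt hne') (not_le.mpr h1)
    have ha : a = a₀ := by omega
    have hb : b = b₀ := by omega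
    rw [ha, hb] at hcon
    exact lt_irrefl _ hcon
  · push Not at h
    exact ⟨1 / 2, by norm_num, fun a b hab => h a b hab⟩

lemma ud_pair {D : Set ℂ} {u₁ u₂ x₁ x₂ : ℂ} (h1 : ‖u₁‖ = 1) (h2 : ‖u₂‖ = 1)
    (hD1 : ∀ a b : ℤ, u₁ * pt a b + x₁ ∈ D) (hD2 : ∀ a b : ℤ, u₂ * pt a b + x₂ ∈ D)
    (hU : IsUnifDiscrete D) : u₁ * conj u₂ ∈ K3 := by
  obtain ⟨r, hr, hU⟩ := hU
  -- small nonzero elements of `u₁ Λ + u₂ Λ` are excluded
  have step1 : ∀ a b c d : ℤ, ‖u₁ * pt a b - u₂ * pt c d‖ < r → u₁ * pt a b - u₂ * pt c d = 0 := by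
    intro a b c d hlt
    by_contra hne
    set g := u₁ * pt a b - u₂ * pt c d with hg
    -- every multiple `g ν`, `ν ∈ Λ`, is a difference
    have hdiff : ∀ m n : ℤ, ∀ w : ℂ, w = x₁ - x₂ + g * pt m n → w ≠ 0 → r ≤ ‖w‖ := by
      intro m n w hw hw0
      have e1 : (u₁ * pt (a * m - b * n) (a * n + b * m + b * n) + x₁) -
          (u₂ * pt (c * m - d * n) (c * n + d * m + d * n) + x₂) = w := by
        rw [hw, hg, ← pt_mul, ← pt_mul]; ring
      have := hU _ (hD1 (a * m - b * n) (a * n + b * m + b * n)) _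
        (hD2 (c * m - d * n) (c * n + d * m + d * n)) (by
          intro heq; apply hw0; rw [← e1, heq]; ring)
      rwa [dist_eq_norm, e1] at this
    obtain ⟨m, n, hmn⟩ := cover (-(x₁ - x₂) / g)
    have e2 : ‖x₁ - x₂ + g * pt m n‖ ≤ ‖g‖ := by
      have : x₁ - x₂ + g * pt m n = -(g * (-(x₁ - x₂) / g - pt m n)) := by
        field_simp; ring
      rw [this, norm_neg, norm_mul]
      nlinarith [norm_nonneg g]
    by_cases h0 : x₁ - x₂ + g * pt m n = 0
    · have := hdiff (m + 1) n g (by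
        have : pt (m + 1) n = pt m n + 1 := by simp only [pt]; push_cast; ring
        rw [this]; linear_combination -h0) hne
      linarith
    · have := hdiff m n _ rfl h0
      linarith
  -- pigeonhole
  choose a b hab using fun n : ℕ => cover' ((n : ℂ) * u₂) h1
  obtain ⟨c, -, φ, hφ, hlim⟩ := (isCompact_closedBall (0 : ℂ) 1).tendsto_subseq
    (x := fun n : ℕ => (n : ℂ) * u₂ - u₁ * pt (a n) (b n)) (by intro n; simpa using hab n)
  have hC := hlim.cauchySeq
  rw [Metric.cauchySeq_iff] at hC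
  obtain ⟨N, hN⟩ := hC r hr
  have h3 := hN (N + 1) (by omega) N le_rfl
  have hlt : φ N < φ (N + 1) := hφ (Nat.lt_succ_self N)
  have hne : ¬ (((φ (N + 1) : ℤ) - (φ N : ℤ)) = 0 ∧ (0 : ℤ) = 0) := by omega
  have e3 : ((φ (N + 1) : ℕ) : ℂ) * u₂ - u₁ * pt (a (φ (N + 1))) (b (φ (N + 1))) -
      (((φ N : ℕ) : ℂ) * u₂ - u₁ * pt (a (φ N)) (b (φ N)))
      = -(u₁ * pt (a (φ (N + 1)) - a (φ N)) (b (φ (N + 1)) - b (φ N)) -
        u₂ * pt ((φ (N + 1) : ℤ) - (φ N : ℤ)) 0) := by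
    rw [← pt_sub]
    simp only [pt]; push_cast; ring
  simp only [Function.comp_apply] at h3
  rw [dist_eq_norm, e3, norm_neg] at h3
  have h4 := step1 _ _ _ _ h3
  set A := a (φ (N + 1)) - a (φ N)
  set B := b (φ (N + 1)) - b (φ N)
  set C := (φ (N + 1) : ℤ) - (φ N : ℤ)
  have hv : u₂ * conj u₂ = 1 := by
    rw [Complex.mul_conj, Complex.normSq_eq_norm_sq, h2]; simp
  have hu₂ : u₂ ≠ 0 := by intro h; rw [h] at h2; simp at h2
  have hAB : ¬ (A = 0 ∧ B = 0) := by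
    intro h
    rw [h.1, h.2, pt_zero, mul_zero, zero_sub, neg_eq_zero] at h4
    rcases mul_eq_zero.mp h4 with h5 | h5
    · exact hu₂ h5
    · exact pt_ne hne h5
  have e4 : u₁ * conj u₂ = pt C 0 * (pt A B)⁻¹ := by
    have := pt_ne hAB
    rw [eq_mul_inv_iff_mul_eq₀ this]
    linear_combination (conj u₂) * h4 + (pt C 0) * hv
  rw [e4]
  exact K3_mul (pt_mem_K3 _ _) (pt_inv_mem hAB)

theorem ud_iff (k : ℕ) (x : Fin k → ℂ) (θ : Fin k → ℝ) :
    IsUnifDiscrete (TBG k x θ) ↔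
      ∀ i j : Fin k, Complex.exp (((θ i - θ j : ℝ) : ℂ) * Complex.I) ∈ K3 := by
  constructor
  · intro hU i j
    rw [← exp_mul_conj]
    exact ud_pair (norm_exp_I _) (norm_exp_I _) (mem_TBG i) (mem_TBG j) hU
  · intro h
    have hpair : ∀ p : Fin k × Fin k, ∃ ρ : ℝ, 0 < ρ ∧ ∀ a b c d : ℤ,
        (Complex.exp ((θ p.1 : ℂ) * Complex.I) * pt a b + x p.1) ≠
          (Complex.exp ((θ p.2 : ℂ) * Complex.I) * pt c d + x p.2) →
        ρ ≤ dist (Complex.exp ((θ p.1 : ℂ) * Complex.I) * pt a b + x p.1)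
          (Complex.exp ((θ p.2 : ℂ) * Complex.I) * pt c d + x p.2) := by
      rintro ⟨i, j⟩
      have hij := h i j
      rw [← exp_mul_conj] at hij
      simp only
      set u := Complex.exp ((θ i : ℂ) * Complex.I) with hu
      set u' := Complex.exp ((θ j : ℂ) * Complex.I) with hu'
      have n' : ‖u'‖ = 1 := norm_exp_I _
      have hu'u : u' * conj u' = 1 := by
        rw [Complex.mul_conj, Complex.normSq_eq_norm_sq, n']; simp
      obtain ⟨n, hn, p, r, hpr⟩ := exists_clear hij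
      have hnC : (n : ℂ) ≠ 0 := by exact_mod_cast hn
      have hnR : (0 : ℝ) < |(n : ℝ)| := abs_pos.mpr (by exact_mod_cast hn)
      have hp : (n : ℂ) * (u * conj u') = pt (p - r) (2 * r) := by
        rw [hpr, pt_eq]; push_cast; ring
      obtain ⟨ρ, hρ, hmin⟩ := min_dist ((n : ℂ) * conj u' * (x i - x j))
      refine ⟨ρ / |(n : ℝ)|, div_pos hρ hnR, ?_⟩
      intro a b c d hne
      have e1 : (n : ℂ) * conj u' * ((u * pt a b + x i) - (u' * pt c d + x j))
          = (n : ℂ) * conj u' * (x i - x j) +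
            (pt (p - r) (2 * r) * pt a b - pt n 0 * pt c d) := by
        rw [← hp]
        have : pt n 0 = (n : ℂ) := by simp [pt]
        rw [this]
        linear_combination (-(n : ℂ) * pt c d) * hu'u
      rw [pt_mul, pt_mul, pt_sub] at e1
      have h5 := hmin _ _ (by
        rw [← e1]
        refine mul_ne_zero (mul_ne_zero hnC ?_) (sub_ne_zero.mpr hne)
        intro h0
        rw [h0] at hu'u; simp at hu'u)
      rw [← e1, norm_mul, norm_mul, Complex.norm_conj, n', mul_one] at h5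
      rw [dist_eq_norm, div_le_iff₀ hnR]
      have h6 : ‖(n : ℂ)‖ = |(n : ℝ)| := by
        rw [← Complex.ofReal_intCast, Complex.norm_real, Real.norm_eq_abs]
      rw [h6] at h5
      linarith
    choose ρ hρ hmin using hpair
    have hall : ∀ᶠ r in nhdsWithin (0 : ℝ) (Set.Ioi 0), ∀ p, r ≤ ρ p :=
      Filter.eventually_all.mpr fun p =>
        Filter.Eventually.filter_mono nhdsWithin_le_nhds (Iic_mem_nhds (hρ p))
    obtain ⟨r, hr, hr0⟩ := (hall.and self_mem_nhdsWithin).exists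
    refine ⟨r, hr0, ?_⟩
    rintro _ ⟨i, _, ⟨a, b, rfl⟩, rfl⟩ _ ⟨j, _, ⟨c, d, rfl⟩, rfl⟩ hne
    exact (hr (i, j)).trans (hmin (i, j) a b c d hne)

end Pool.Agent.U517.TB
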